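import Pool.Agent.H524Z.Antitree.Prob

/-!
# Large disorder does not force pure point spectrum on antitrees

The negated form of the question: a single site law `P` on `[-1, 1]` with mean `0` and variance in
`(0, 1]`, shell sizes `s`, an interval `[a, b]` and an event `G` of positive probability such that
for every disorder `lam ≥ 1` and every potential `v ∈ G` the spectrum of the Anderson operator is
not pure point in `[a, b]`.
-/

set_option autoImplicit false

open MeasureTheory ProbabilityTheory Pool.Agent.H524Z.Antitree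

theorem Pool.Agent.Results.MP_be97d8_mp.ANotPurePoint.result :
    ∃ (P : Measure ℝ) (_ : IsProbabilityMeasure P),
      P (Set.Icc (-1 : ℝ) 1)ᶜ = 0 ∧ ∫ t, t ∂P = 0 ∧ 0 < variance id P ∧ variance id P ≤ 1 ∧
      ∃ s : ℕ → ℕ, (∀ n, 0 < s n) ∧ ∃ a b : ℝ, a < b ∧
        ∃ G : Set (Vtx s → ℝ), MeasurableSet G ∧
          0 < Measure.infinitePi (fun _ : Vtx s => P) G ∧
          ∀ lam : ℝ, 1 ≤ lam → ∀ v ∈ G, ∃ H : L2 s →L[ℂ] L2 s,
            IsAnderson s lam v H ∧ IsSelfAdjoint H ∧ ¬ PurePointIn H a b := by
  obtain ⟨G, hG, hpos, hgood⟩ := exists_event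
  refine ⟨law, inferInstance, law_Icc, ?_, ?_, ?_, sz, sz_pos, 1 / 4, 1 / 2, by norm_num,
    G, hG, hpos, fun lam hl v hv => good_not_purePoint sz_pos hl (hgood v hv)⟩
  · rw [law_integral (fun t => t)]
    norm_num
  · rw [law_variance]
    norm_num
  · rw [law_variance]
    norm_num
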